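import Mathlib

/-!
# Change of the gauge: definitions

`G` is a resolvent on a finite set of sites, `k` the total absorption at every site
(`k = η + s Im m` at the nodes with the clock `s` and the gauge `m`, `k = η` at the dead sites).
-/

set_option autoImplicit false

open scoped BigOperators Matrix

noncomputable section

namespace Pool.Agent.AGU

variable {X : Type} [Fintype X] [DecidableEq X]

/-- symmetric, with the Ward identity for the absorption `k` -/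
structure WK (G : Matrix X X ℂ) (k : X → ℝ) : Prop where
  hk : ∀ a, 0 < k a
  hs : ∀ a b, G a b = G b a
  hw : ∀ a b, ∑ c, (k c : ℂ) * (starRingEnd ℂ) (G a c) * G c b = ((G a b).im : ℂ)

/-- the Dirichlet form with the conductances `k_a k_b |G_ab|²` -/
def EF (G : Matrix X X ℂ) (k : X → ℝ) (f : X → ℝ) : ℝ :=
  (1 / 2) * ∑ a, ∑ b, k a * k b * ‖G a b‖ ^ 2 * (f a - f b) ^ 2

/-- `G'` is the resolvent with the absorption and the energy changed by `z` -/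
structure Chg (G G' : Matrix X X ℂ) (k k' : X → ℝ) (z : X → ℂ) (d : ℝ) : Prop where
  h0 : WK G k
  h1 : WK G' k'
  hd : 0 ≤ d ∧ d ≤ 1 / 4
  hz : ∀ a, ‖z a‖ ≤ d * k a
  hk : ∀ a, k' a = k a + (z a).im
  hr : ∀ a b, G' a b = G a b + ∑ c, G a c * z c * G' c b

/-- the running sites `R` with the clock `s`, the gauge `m` with `c₀ ≤ Im m ≤ C₀`, the mismatch at
most `ε`, the form bound `Re (1 - Y) ≥ c` for `Y = s G ∘ G` on `R` -/
structure Run (G : Matrix X X ℂ) (k : X → ℝ) (R : Finset X) (m : X → ℂ)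
    (s ε c c₀ C₀ : ℝ) : Prop where
  hw : WK G k
  hs : 0 < s
  hc : 0 < c ∧ c ≤ 1 ∧ 0 < c₀ ∧ c₀ ≤ 1 ∧ 1 ≤ C₀
  hε : 0 ≤ ε ∧ ε ≤ c₀ / 4
  hm : ∀ a ∈ R, c₀ ≤ (m a).im ∧ (m a).im ≤ C₀
  hk : ∀ a ∈ R, s * (m a).im ≤ k a
  hμ : ∀ a ∈ R, ‖G a a - m a‖ ≤ ε
  hY : ∀ u : X → ℂ, (∑ a ∈ R, (starRingEnd ℂ) (u a) * ∑ b ∈ R, s * G a b ^ 2 * u b).re ≤
    (1 - c) * ∑ a ∈ R, ‖u a‖ ^ 2

end Pool.Agent.AGU
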