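import Pool.Agent.AGU.Defs
import Pool.Agent.AGU.ThetaF

/-!
# Change of the gauge: statements

At the boundary of a stage the gauge `m` of the running sites is replaced by `m + δ`, where
`δ = (1 - Y)⁻¹ μ` (one Newton step), `μ a = G a a - m a` is the mismatch, `Y = s G ∘ G`. The resolvent
changes by `G' = G + G z G'`, `z = s δ`. Everything is uniform in the volume: `|δ| ≤ C log(1/s) |μ|` in
the sup norm, the new mismatch is quadratic, the Dirichlet form changes by a relative amount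
`C |δ|` for all functions at once.
-/

set_option autoImplicit false

open scoped BigOperators Matrix

noncomputable section

namespace Pool.Agent.AGU

/-- GWB: consequences of the Ward identity. Proof: (1) `hw` with `a = b`. (2) for `u`:
`∑_a k_a |∑_b G_ab u_b|² = ∑_(b,c) conj(u_b) u_c ∑_a k_a conj(G_ba) G_ac = ∑_(b,c) conj(u_b) u_c Im G_bc`,
and this real number is the imaginary part of `∑_(b,c) conj(u_b) u_c G_bc` (symmetry of `G`), so it is at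
most `|∑_b conj(u_b) (G u)_b| ≤ (∑ |u_b|²/k_b)^(1/2) (∑ k_b |(G u)_b|²)^(1/2)`. (3) (2) for
`u = e_b`, `u_b = 1`: `∑_a k_a |G_ab|² ≤ 1/k_b`; one term of the sum. (4) Cauchy-Schwarz and (1). -/
def GwbStmt : Prop :=
  ∀ (X : Type) [Fintype X] [DecidableEq X] (G : Matrix X X ℂ) (k : X → ℝ), WK G k →
    (∀ a, ∑ b, k b * ‖G a b‖ ^ 2 = (G a a).im) ∧
    (∀ u : X → ℂ, ∑ a, k a * ‖∑ b, G a b * u b‖ ^ 2 ≤ ∑ b, ‖u b‖ ^ 2 / k b) ∧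
    (∀ a b, k a * k b * ‖G a b‖ ^ 2 ≤ 1) ∧
    ∀ (a b : X) (z : X → ℂ) (d : ℝ), 0 ≤ d → (∀ c, ‖z c‖ ≤ d * k c) →
      ‖∑ c, G a c * z c * G c b‖ ≤ d * Real.sqrt ((G a a).im * (G b b).im)

/-- GPB (uses GWB): bounds for the change `Δ = G' - G = G z G'`. Write `g = Im G_aa`, `g'` for `G'`;
`k' ≥ (3/4) k`. (a) `|Δ_ab| ≤ ∑_c |G_ac| d k_c |G'_cb| ≤ d (g_a)^(1/2) ((4/3) g'_b)^(1/2)` (Cauchy-Schwarz,
`∑ k_c |G'_cb|² ≤ (4/3) ∑ k'_c |G'_cb|² = (4/3) g'_b`). For `a = b`: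
`|g' - g| ≤ (1/4)(4/3)^(1/2) (g g')^(1/2) ≤ 0.29 (g + g')/2`, so `g' ≤ 1.4 g` and `g ≤ 1.4 g'`: (1).
(2) from (a): `d² (4/3) (1.4) ≤ 2 d²`. (3) `Δ` column `b` is `G (z G' e_b)`: GWB (2):
`∑_a k_a |Δ_ab|² ≤ ∑_c |z_c|² |G'_cb|²/k_c ≤ d² ∑ k_c |G'_cb|² ≤ d² (4/3) (1.4) g_b`.
(4) `Δ_aa - ∑_c G_ac z_c G_ca = ∑_c G_ac z_c Δ_ca`, Cauchy-Schwarz with (3): `d (g_a)^(1/2) (2 d² g_a)^(1/2)`.
(5) `|G'² - G²| ≤ |Δ| (2 |G| + |Δ|)`, Cauchy-Schwarz with the weights `k`: `2 (2 d² g g)^(1/2) + 2 d² g`.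
(6) `∑_(b ∈ S) |Δ_ab|⁴ ≤ sup_b |Δ_ab|² ∑_(b ∈ S) |Δ_ab|²`, (2) and (3) (`Δ` is symmetric). -/
def GpbStmt : Prop :=
  ∀ (X : Type) [Fintype X] [DecidableEq X] (G G' : Matrix X X ℂ) (k k' : X → ℝ) (z : X → ℂ)
    (d : ℝ), Chg G G' k k' z d →
    (∀ a, (G' a a).im ≤ 3 / 2 * (G a a).im ∧ (G a a).im ≤ 3 / 2 * (G' a a).im) ∧
    (∀ a b, ‖G' a b - G a b‖ ^ 2 ≤ 2 * d ^ 2 * ((G a a).im * (G b b).im)) ∧
    (∀ b, ∑ a, k a * ‖G' a b - G a b‖ ^ 2 ≤ 2 * d ^ 2 * (G b b).im) ∧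
    (∀ a, ‖G' a a - G a a - ∑ c, G a c ^ 2 * z c‖ ≤ 2 * d ^ 2 * (G a a).im) ∧
    (∀ a, ∑ b, k b * ‖G' a b ^ 2 - G a b ^ 2‖ ≤ 4 * d * (G a a).im) ∧
    ∀ (a : X) (S : Finset X) (κ₀ g₀ : ℝ), 0 < κ₀ → 0 ≤ g₀ → (∀ b ∈ S, κ₀ ≤ k b ∧ (G b b).im ≤ g₀) →
      ∑ b ∈ S, ‖G' a b - G a b‖ ^ 4 ≤ 4 * d ^ 4 * (G a a).im ^ 2 * g₀ / κ₀

/-- GPF (uses GWB): the change of the form, for all functions at once. Proof: let `F = [f, G]`,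
`F_ab = (f_a - f_b) G_ab`, so `EF G k f = (1/2) ∑ k_a k_b |F_ab|²`, and `F'` for `G'`. From
`G' = G + G z G'`, `f` commutes with `z`: `F' = F + F z G' + G z F'`. As `G' = (1 + G' z) G` too (the
transpose of `hr`, symmetry) and `(1 + G' z)(1 - G z) = 1` (from `G' = G + G' z G`), one gets
`F' = (1 + G' z) F (1 + z G')`. With the norm `N(F)² = ∑ k_a k_b |F_ab|²`: GWB (2) for `G'`, `k'` and
`k ≤ (4/3) k'`, `|z|² ≤ d² k²`: `∑_a k_a |∑_b G'_ab z_b u_b|² ≤ (4/3)² d² ∑ k_b |u_b|²`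
(`∑ |z_b u_b|²/k'_b ≤ (4/3) d² ∑ k_b |u_b|²`), so `N(G' z F) ≤ (4/3) d N(F)`, the same on the right side:
`N(F' - F) ≤ (2 (4/3) d + (4/3)² d²) N(F) ≤ (7/2) d N(F)`, `N(F')² ≤ (1 + (7/2) d)² N(F)²`,
`N(F')² ≥ (1 - (7/2) d)² N(F)²`. The weights: `|k'_a k'_b - k_a k_b| ≤ (2 d + d²) k_a k_b`. In total a relative
change at most `(1 + (7/2) d)² (1 + d)² - 1 ≤ 20 d`. -/
def GpfStmt : Prop :=
  ∀ (X : Type) [Fintype X] [DecidableEq X] (G G' : Matrix X X ℂ) (k k' : X → ℝ) (z : X → ℂ)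
    (d : ℝ), Chg G G' k k' z d → ∀ f : X → ℝ, |EF G' k' f - EF G k f| ≤ 20 * d * EF G k f

/-- GHO: Minkowski in `ℓ⁴`. Proof: `N(x) = (∑ |x|⁴)^(1/4)` is a norm (`Real.Lp_add_le` or
`PiLp` with `p = 4`), square `N(h) ≤ N(g) + N(h - g)`. -/
def GhoStmt : Prop :=
  ∀ (X : Type) (S : Finset X) (g h : X → ℂ) (L Q : ℝ), 0 ≤ L → 0 ≤ Q →
    ∑ b ∈ S, ‖g b‖ ^ 4 ≤ L ^ 4 → ∑ b ∈ S, ‖h b - g b‖ ^ 4 ≤ Q ^ 4 →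
      ∑ b ∈ S, ‖h b‖ ^ 4 ≤ (L + Q) ^ 4

/-- GNW: the Newton step. Proof: apply `AGU.TF.ThH.local_sup` (`AGU/ThetaF.lean`, helper92's theorem
with the form bound as hypothesis) on the subtype `R`, with `G` restricted to `R`, `g a = Im m a`,
`r a = r = (s / (1 + ε/c₀))^(1/2)`. `wd`: `∑_(b ∈ R) s g_b |G_ab|² ≤ ∑ k_b |G_ab|² = Im G_aa ≤ g_a + ε ≤
(1 + ε/c₀) g_a`. `form`: `r² ≤ s`, so from `hY` (the part `1 - r²/s ≥ 0` of `|u|²`: write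
`|u|² - r² Re⟨u, G² u⟩ = (1 - r²/s) |u|² + (r²/s)(|u|² - s Re⟨u, G² u⟩) ≥ (1 - r²/s) |u|² + (r²/s) c |u|²
≥ c |u|²`, `c ≤ 1`). `surj` gives `u` with `u - Ys G r u = r μ`; `δ = u / r` on `R`, `0` outside:
`δ_a - μ_a = ∑_b r² G_ab² δ_b` on `R`. `local_sup` at `o` with `θ = c / 4`, `e = e o`, `B = B o`,
`M = ε/c₀` (`|r μ_a| ≤ r ε ≤ M r g_a`), `J = ⌈4 log N / c⌉`: `(1 - c/2)^J ≤ exp(-c J/2) ≤ 1/N²`, so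
`|u_o| ≤ (J/2) (ε/c₀) r C₀ + (c^(-2) N^(-2) N r² ε²)^(1/2) + ((4/(3c))² r² ε²)^(1/2)`: divide by `r`. The
residual: `δ_a - μ_a - ∑ s G_ab² δ_b = - (s - r²) ∑ G_ab² δ_b`, `s - r² ≤ s ε/c₀`, and
`∑_(b ∈ R) s |G_ab|² ≤ (g_a + ε)/c₀`. -/
def GnwStmt : Prop :=
  ∀ c c₀ C₀ : ℝ, 0 < c → 0 < c₀ → 1 ≤ C₀ → ∃ C : ℝ, 1 ≤ C ∧
    ∀ (X : Type) [Fintype X] [DecidableEq X] (G : Matrix X X ℂ) (k : X → ℝ) (R : Finset X)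
      (m : X → ℂ) (s ε : ℝ) (e : X → X → ℝ) (B : X → Finset X) (N : ℝ),
      Run G k R m s ε c c₀ C₀ → 1 ≤ N → (∀ a b, 0 < e a b) → (∀ a, e a a = 1) →
      (∀ o ∈ R, ∀ a ∈ R, ∑ b ∈ R, s * ‖G a b‖ ^ 2 *
        (|1 - e o a / e o b| ⊔ |1 - e o b / e o a|) * (m b).im ≤ c / 4 * (m a).im) →
      (∀ o, ((B o).card : ℝ) ≤ N) → (∀ o, ∑ b ∈ R \ B o, e o b ^ 2 ≤ 1) →
      ∃ δ : X → ℂ, (∀ a, a ∉ R → δ a = 0) ∧ (∀ a, ‖δ a‖ ≤ C * (1 + Real.log N) * ε) ∧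
        ∀ a ∈ R, ‖δ a - (G a a - m a) - ∑ b ∈ R, s * G a b ^ 2 * δ b‖ ≤
          C * (1 + Real.log N) * ε ^ 2

/-- GCW: the weights from the weighted Ward identity. Proof: `e o a = exp(-β D o a)`,
`|1 - e o a/e o b| ≤ exp(β D a b) - 1` (triangle inequality, `|1 - exp t| ≤ exp |t| - 1`), the same for the
other; `exp(β x) - 1 ≤ (β/β₁) (exp(β₁ x) - 1)` for `0 ≤ β ≤ β₁`, `x ≥ 0` (convexity), `s Im m ≤ k`. -/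
def GcwStmt : Prop :=
  ∀ (X : Type) [Fintype X] [DecidableEq X] (G : Matrix X X ℂ) (k : X → ℝ) (R : Finset X)
    (m : X → ℂ) (s ε c c₀ C₀ β β₁ C₁ : ℝ) (D : X → X → ℝ), Run G k R m s ε c c₀ C₀ →
    (∀ a b, 0 ≤ D a b ∧ D a b = D b a) → (∀ a, D a a = 0) → (∀ a b e, D a b ≤ D a e + D e b) →
    0 ≤ β → β ≤ β₁ → 0 < β₁ → 0 ≤ C₁ →
    (∀ a ∈ R, ∑ b, k b * ‖G a b‖ ^ 2 * Real.exp (β₁ * D a b) ≤ C₁ * (m a).im) →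
      ∀ o ∈ R, ∀ a ∈ R, ∑ b ∈ R, s * ‖G a b‖ ^ 2 *
        (|1 - Real.exp (-(β * D o a)) / Real.exp (-(β * D o b))| ⊔
          |1 - Real.exp (-(β * D o b)) / Real.exp (-(β * D o a))|) * (m b).im ≤
        β / β₁ * C₁ * (m a).im

/-- the conclusion of the regauging: `L` is `C (1 + log N)` -/
def Regauged {X : Type} [Fintype X] [DecidableEq X] (G : Matrix X X ℂ) (k : X → ℝ) (R : Finset X)
    (m : X → ℂ) (s ε c₀ L : ℝ) (δ : X → ℂ) : Prop :=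
  (∀ a, a ∉ R → δ a = 0) ∧ (∀ a, ‖δ a‖ ≤ L * ε) ∧ (∀ a, ‖(s : ℂ) * δ a‖ ≤ L * ε / c₀ * k a) ∧
    ∀ (G' : Matrix X X ℂ) (k' : X → ℝ), Chg G G' k k' (fun a => (s : ℂ) * δ a) (L * ε / c₀) →
      (∀ a ∈ R, ‖G' a a - (m a + δ a)‖ ≤ L ^ 2 * ε ^ 2) ∧
      ∀ u : X → ℂ, ∑ a ∈ R, ‖∑ b ∈ R, (s : ℂ) * (G' a b ^ 2 - G a b ^ 2) * u b‖ ^ 2 ≤
        (L * ε) ^ 2 * ∑ b ∈ R, ‖u b‖ ^ 2

/-- GFI (uses GNW, GPB): the regauging. Proof: `δ` from GNW, `L₁ = C (1 + log N)`, `L = C' L₁` with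
`C' = C'(c₀, C₀)` large. `|s δ_a| ≤ s L₁ ε ≤ (L₁ ε/c₀) k_a` on `R` (`k ≥ s Im m ≥ s c₀`). New mismatch:
`G'_aa - m_a - δ_a = (G'_aa - G_aa - ∑ G_ac² s δ_c) + (μ_a + ∑ s G_ac² δ_c - δ_a)`: GPB (4) with
`d = L₁ ε/c₀` (`Chg` holds with this `d` too; `Im G_aa ≤ C₀ + 1`) and the residual of GNW. The last: the matrix
`s |G'² - G²|` on `R` is symmetric with row sums `≤ (1/c₀) ∑ k_b |G'_ab² - G_ab²| ≤ 4 d (C₀ + 1)/c₀`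
(GPB (5), `d = L₁ ε/c₀`), Schur test. `L ≥ 1` absorbs the constants. -/
def GfiStmt : Prop :=
  ∀ c c₀ C₀ : ℝ, 0 < c → 0 < c₀ → 1 ≤ C₀ → ∃ C : ℝ, 1 ≤ C ∧
    ∀ (X : Type) [Fintype X] [DecidableEq X] (G : Matrix X X ℂ) (k : X → ℝ) (R : Finset X)
      (m : X → ℂ) (s ε : ℝ) (e : X → X → ℝ) (B : X → Finset X) (N : ℝ),
      Run G k R m s ε c c₀ C₀ → 1 ≤ N → (∀ a b, 0 < e a b) → (∀ a, e a a = 1) →
      (∀ o ∈ R, ∀ a ∈ R, ∑ b ∈ R, s * ‖G a b‖ ^ 2 *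
        (|1 - e o a / e o b| ⊔ |1 - e o b / e o a|) * (m b).im ≤ c / 4 * (m a).im) →
      (∀ o, ((B o).card : ℝ) ≤ N) → (∀ o, ∑ b ∈ R \ B o, e o b ^ 2 ≤ 1) →
      ∃ δ : X → ℂ, Regauged G k R m s ε c₀ (C * (1 + Real.log N)) δ

end Pool.Agent.AGU
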